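import Pool.Agent.Helper88.Ric.Stmts

/-!
MP_092777_ag: module CUT, the cut-off region.
-/

set_option autoImplicit false

open scoped ContDiff Topology
open Set

noncomputable section

namespace RicP

/-- the half plane `L > 0` -/
def cut_U : Set (ℝ × ℝ) := {p | 0 < p.1}

theorem cut_U_open : IsOpen cut_U := isOpen_lt continuous_const continuous_fst

theorem cut_congr {f g : ℝ × ℝ → ℝ} (b : ℝ × ℝ) (h : EqOn f g cut_U) :
    EqOn (Dd b f) (Dd b g) cut_U := by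
  intro x hx
  have : f =ᶠ[𝓝 x] g := h.eventuallyEq_of_mem (cut_U_open.mem_nhds hx)
  simp only [Dd]
  rw [this.fderiv_eq]

theorem cut_congr_iter {f g : ℝ × ℝ → ℝ} (b : ℝ × ℝ) (n : ℕ) (h : EqOn f g cut_U) :
    EqOn ((Dd b)^[n] f) ((Dd b)^[n] g) cut_U := by
  induction n generalizing f g with
  | zero => exact h
  | succ n ih =>
    rw [Function.iterate_succ_apply, Function.iterate_succ_apply]
    exact ih (cut_congr b h)

theorem cut_smooth {f : ℝ × ℝ → ℝ} (b : ℝ × ℝ) (h : ContDiffOn ℝ ∞ f cut_U) :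
    ContDiffOn ℝ ∞ (Dd b f) cut_U := by
  have h1 : ContDiffOn ℝ ∞ (fun x => fderiv ℝ f x) cut_U :=
    h.fderiv_of_isOpen cut_U_open (by simp)
  exact h1.clm_apply contDiffOn_const

theorem cut_smooth_iter {f : ℝ × ℝ → ℝ} (b : ℝ × ℝ) (n : ℕ) (h : ContDiffOn ℝ ∞ f cut_U) :
    ContDiffOn ℝ ∞ ((Dd b)^[n] f) cut_U := by
  induction n generalizing f with
  | zero => exact h
  | succ n ih =>
    rw [Function.iterate_succ_apply]
    exact ih (cut_smooth b h)

theorem cut_diff {f : ℝ × ℝ → ℝ} (h : ContDiffOn ℝ ∞ f cut_U) {x : ℝ × ℝ} (hx : x ∈ cut_U) :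
    DifferentiableAt ℝ f x :=
  (h.contDiffAt (cut_U_open.mem_nhds hx)).differentiableAt (by simp)

theorem cut_add {f g : ℝ × ℝ → ℝ} (b : ℝ × ℝ) (hf : ContDiffOn ℝ ∞ f cut_U)
    (hg : ContDiffOn ℝ ∞ g cut_U) :
    EqOn (Dd b (fun p => f p + g p)) (fun p => Dd b f p + Dd b g p) cut_U := by
  intro x hx
  simp only [Dd]
  rw [fderiv_fun_add (cut_diff hf hx) (cut_diff hg hx)]
  rfl

theorem cut_add_iter {f g : ℝ × ℝ → ℝ} (b : ℝ × ℝ) (n : ℕ) (hf : ContDiffOn ℝ ∞ f cut_U)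
    (hg : ContDiffOn ℝ ∞ g cut_U) :
    EqOn ((Dd b)^[n] (fun p => f p + g p)) (fun p => (Dd b)^[n] f p + (Dd b)^[n] g p) cut_U := by
  induction n generalizing f g with
  | zero => exact fun _ _ => rfl
  | succ n ih =>
    intro x hx
    simp only [Function.iterate_succ_apply]
    rw [cut_congr_iter b n (cut_add b hf hg) hx]
    exact ih (cut_smooth b hf) (cut_smooth b hg) hx

theorem cut_add_iter2 {f g : ℝ × ℝ → ℝ} (b b' : ℝ × ℝ) (n m : ℕ)
    (hf : ContDiffOn ℝ ∞ f cut_U) (hg : ContDiffOn ℝ ∞ g cut_U) :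
    EqOn ((Dd b)^[n] ((Dd b')^[m] (fun p => f p + g p)))
      (fun p => (Dd b)^[n] ((Dd b')^[m] f) p + (Dd b)^[n] ((Dd b')^[m] g) p) cut_U := by
  intro x hx
  rw [cut_congr_iter b n (cut_add_iter b' m hf hg) hx]
  exact cut_add_iter b n (cut_smooth_iter b' m hf) (cut_smooth_iter b' m hg) hx

theorem cut_fst_smooth {c : ℝ → ℝ} (hc : ContDiff ℝ ∞ c) :
    ContDiffOn ℝ ∞ (fun p : ℝ × ℝ => c p.1) cut_U :=
  (hc.comp contDiff_fst).contDiffOn

theorem cut_mul {c : ℝ → ℝ} {g : ℝ × ℝ → ℝ} (b : ℝ × ℝ) (hc : ContDiff ℝ ∞ c)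
    (hg : ContDiffOn ℝ ∞ g cut_U) :
    EqOn (Dd b (fun p => c p.1 * g p))
      (fun p => (b.1 * deriv c p.1) * g p + c p.1 * Dd b g p) cut_U := by
  intro x hx
  have h1 : HasFDerivAt (fun p : ℝ × ℝ => c p.1) ((deriv c x.1) • ContinuousLinearMap.fst ℝ ℝ ℝ) x := by
    have hd : HasDerivAt c (deriv c x.1) x.1 :=
      (hc.differentiable (by simp)).differentiableAt.hasDerivAt
    exact hd.comp_hasFDerivAt x hasFDerivAt_fst
  have h2 := (cut_diff hg hx).hasFDerivAt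
  have h3 := h1.mul h2
  simp only [Dd]
  have h4 : fderiv ℝ (fun p : ℝ × ℝ => c p.1 * g p) x =
      c x.1 • fderiv ℝ g x + g x • ((deriv c x.1) • ContinuousLinearMap.fst ℝ ℝ ℝ) := h3.fderiv
  rw [h4]
  simp only [_root_.add_apply, _root_.smul_apply,
    ContinuousLinearMap.coe_fst', smul_eq_mul]
  ring

theorem cut_mul_zero {c : ℝ → ℝ} {g : ℝ × ℝ → ℝ} (s : ℝ) (n : ℕ) (hc : ContDiff ℝ ∞ c)
    (hg : ContDiffOn ℝ ∞ g cut_U) :
    EqOn ((Dd (0, s))^[n] (fun p => c p.1 * g p))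
      (fun p => c p.1 * (Dd (0, s))^[n] g p) cut_U := by
  induction n generalizing g with
  | zero => exact fun _ _ => rfl
  | succ n ih =>
    intro x hx
    simp only [Function.iterate_succ_apply]
    have h1 : EqOn (Dd (0, s) (fun p => c p.1 * g p)) (fun p => c p.1 * Dd (0, s) g p) cut_U := by
      intro y hy
      rw [cut_mul (0, s) hc hg hy]
      simp
    rw [cut_congr_iter (0, s) n h1 hx]
    exact ih (cut_smooth (0, s) hg) hx

theorem cut_leib (L T s M K : ℝ) (hL : 0 < L) (hK : 0 ≤ K) (a b : ℕ) :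
    ∀ (c : ℝ → ℝ) (g : ℝ × ℝ → ℝ), ContDiff ℝ ∞ c → ContDiffOn ℝ ∞ g cut_U →
    (∀ j ≤ b, |L ^ j * iteratedDeriv j c L| ≤ K) →
    (∀ b' ≤ b, |(Dd (0, s))^[a] ((Dd (L, T))^[b'] g) (L, T)| ≤ M) →
    |(Dd (0, s))^[a] ((Dd (L, T))^[b] (fun p => c p.1 * g p)) (L, T)| ≤ 2 ^ b * K * M := by
  have hmem : ((L, T) : ℝ × ℝ) ∈ cut_U := hL
  induction b with
  | zero =>
    intro c g hc hg h1 h2
    have e := cut_mul_zero s a hc hg hmem
    simp only [Function.iterate_zero, id_eq]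
    rw [e, abs_mul]
    have k1 := h1 0 le_rfl
    have k2 := h2 0 le_rfl
    simp only [pow_zero, one_mul, iteratedDeriv_zero, Function.iterate_zero, id_eq] at k1 k2
    rw [pow_zero, one_mul]
    exact mul_le_mul k1 k2 (abs_nonneg _) hK
  | succ b ih =>
    intro c g hc hg h1 h2
    have hc' : ContDiff ℝ ∞ (fun x => L * deriv c x) := by
      have : ContDiff ℝ ∞ (deriv c) := by
        have h := (contDiff_infty_iff_deriv (f := c)).1 hc
        exact h.2
      exact contDiff_const.mul this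
    have hg' := cut_smooth (L, T) hg
    have e1 : EqOn (Dd (L, T) (fun p => c p.1 * g p))
        (fun p => (fun x => L * deriv c x) p.1 * g p + c p.1 * Dd (L, T) g p) cut_U :=
      cut_mul (L, T) hc hg
    have e2 : EqOn ((Dd (0, s))^[a] ((Dd (L, T))^[b] (Dd (L, T) (fun p => c p.1 * g p))))
        ((Dd (0, s))^[a] ((Dd (L, T))^[b]
          (fun p => (fun x => L * deriv c x) p.1 * g p + c p.1 * Dd (L, T) g p))) cut_U :=
      cut_congr_iter _ _ (cut_congr_iter _ _ e1)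
    have s1 : ContDiffOn ℝ ∞ (fun p : ℝ × ℝ => (fun x => L * deriv c x) p.1 * g p) cut_U :=
      (cut_fst_smooth hc').mul hg
    have s2 : ContDiffOn ℝ ∞ (fun p : ℝ × ℝ => c p.1 * Dd (L, T) g p) cut_U :=
      (cut_fst_smooth hc).mul hg'
    have e3 := cut_add_iter2 (0, s) (L, T) a b s1 s2 hmem
    rw [Function.iterate_succ_apply, e2 hmem, e3]
    have i1 := ih (fun x => L * deriv c x) g hc' hg (by
      intro j hj
      have hd : iteratedDeriv j (fun x => L * deriv c x) L = L * iteratedDeriv (j + 1) c L := by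
        rw [iteratedDeriv_succ']
        exact iteratedDeriv_const_mul_field (n := j) L (deriv c) (x := L)
      rw [hd]
      have := h1 (j + 1) (by omega)
      rw [← mul_assoc, ← pow_succ]
      exact this) (fun b' hb' => h2 b' (by omega))
    have i2 := ih c (Dd (L, T) g) hc hg' (fun j hj => h1 j (by omega)) (by
      intro b' hb'
      have := h2 (b' + 1) (by omega)
      rwa [Function.iterate_succ_apply] at this)
    refine (abs_add_le _ _).trans ?_
    have : (2 : ℝ) ^ (b + 1) * K * M = 2 ^ b * K * M + 2 ^ b * K * M := by ring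
    rw [this]
    exact add_le_add i1 i2

/-! ### the semi-flat potential -/

/-- a family of functions stable under directional derivatives -/
def cut_fam (c : ℝ × ℝ × ℝ × ℝ) (k : ℕ) : ℝ × ℝ → ℝ := fun p =>
  c.1 * p.2 ^ 2 * (p.1⁻¹) ^ (k + 2) + c.2.1 * p.2 * (p.1⁻¹) ^ (k + 1) + c.2.2.1 * (p.1⁻¹) ^ k
    + c.2.2.2 * (p.1⁻¹) ^ (k + 1)

/-- coefficients of the derivative in direction `b` -/
def cut_co (b : ℝ × ℝ) (c : ℝ × ℝ × ℝ × ℝ) (k : ℕ) : ℝ × ℝ × ℝ × ℝ :=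
  (-(b.1 * (k + 2) * c.1), 2 * b.2 * c.1 - b.1 * (k + 1) * c.2.1, b.2 * c.2.1 - b.1 * k * c.2.2.1,
    -(b.1 * (k + 1) * c.2.2.2))

theorem cut_inv {x : ℝ × ℝ} (hx : x ∈ cut_U) (n : ℕ) :
    HasFDerivAt (fun p : ℝ × ℝ => (p.1⁻¹) ^ n)
      ((-(n * (x.1⁻¹) ^ (n + 1))) • ContinuousLinearMap.fst ℝ ℝ ℝ) x := by
  have hx' : x.1 ≠ 0 := ne_of_gt hx
  have h1 : HasDerivAt (fun y : ℝ => (y⁻¹) ^ n) (-(n * (x.1⁻¹) ^ (n + 1))) x.1 := by
    have h2 := (hasDerivAt_inv hx').pow n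
    refine h2.congr_deriv ?_
    cases n with
    | zero => simp
    | succ n =>
      simp only [Nat.cast_add, Nat.cast_one, Nat.add_sub_cancel, ← inv_pow]
      ring
  exact h1.comp_hasFDerivAt x hasFDerivAt_fst

theorem cut_fam_Dd (b : ℝ × ℝ) (c : ℝ × ℝ × ℝ × ℝ) (k : ℕ) :
    EqOn (Dd b (cut_fam c k)) (cut_fam (cut_co b c k) (k + 1)) cut_U := by
  intro x hx
  have i2 := cut_inv hx (k + 2)
  have i1 := cut_inv hx (k + 1)
  have i0 := cut_inv hx k
  have t1 : HasFDerivAt (fun p : ℝ × ℝ => p.2) (ContinuousLinearMap.snd ℝ ℝ ℝ) x := hasFDerivAt_snd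
  have t2 := t1.pow 2
  have h := ((((t2.const_mul c.1).mul i2).add ((t1.const_mul c.2.1).mul i1)).add
    (i0.const_mul c.2.2.1)).add (i1.const_mul c.2.2.2)
  have e : fderiv ℝ (cut_fam c k) x = _ := h.fderiv
  simp only [Dd]
  rw [e]
  simp only [_root_.add_apply, _root_.smul_apply, ContinuousLinearMap.coe_fst',
    ContinuousLinearMap.coe_snd', smul_eq_mul, cut_fam, cut_co]
  push_cast
  ring

theorem cut_FU_smooth : ContDiffOn ℝ ∞ FU cut_U := by
  have h1 : ContDiffOn ℝ ∞ (fun p : ℝ × ℝ => 28 * p.2 ^ 2 / p.1) cut_U := by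
    refine ContDiffOn.div ?_ contDiff_fst.contDiffOn (fun x hx => ne_of_gt hx)
    exact (contDiff_const.mul (contDiff_snd.pow 2)).contDiffOn
  have h2 : ContDiffOn ℝ ∞ (fun p : ℝ × ℝ => Real.log p.1) cut_U :=
    contDiff_fst.contDiffOn.log (fun x hx => ne_of_gt hx)
  exact h1.sub (contDiffOn_const.mul h2)

theorem cut_FU_Dd (b : ℝ × ℝ) :
    EqOn (Dd b FU) (cut_fam (-(28 * b.1), 56 * b.2, 0, -(23 * b.1)) 0) cut_U := by
  intro x hx
  have hx' : x.1 ≠ 0 := ne_of_gt hx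
  have i1 := cut_inv hx 1
  have t1 : HasFDerivAt (fun p : ℝ × ℝ => p.2) (ContinuousLinearMap.snd ℝ ℝ ℝ) x := hasFDerivAt_snd
  have t2 := t1.pow 2
  have l1 : HasFDerivAt (fun p : ℝ × ℝ => Real.log p.1)
      ((x.1⁻¹) • ContinuousLinearMap.fst ℝ ℝ ℝ) x :=
    (Real.hasDerivAt_log hx').comp_hasFDerivAt x hasFDerivAt_fst
  have h := ((t2.const_mul 28).mul i1).sub (l1.const_mul 23)
  have e0 : FU = (fun p : ℝ × ℝ => (28 * p.2 ^ 2) * (p.1⁻¹) ^ 1 - 23 * Real.log p.1) := by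
    funext p
    simp only [FU, div_eq_mul_inv, pow_one]
  have e : fderiv ℝ FU x = fderiv ℝ (((fun y : ℝ × ℝ => 28 * y.2 ^ 2) * fun p => p.1⁻¹ ^ 1) -
      fun y => 23 * Real.log y.1) x := by
    rw [e0]; rfl
  simp only [Dd]
  rw [e, h.fderiv]
  simp only [_root_.sub_apply, _root_.add_apply, _root_.smul_apply, ContinuousLinearMap.coe_fst',
    ContinuousLinearMap.coe_snd', smul_eq_mul, cut_fam]
  push_cast
  ring

/-- iterated derivatives of the semi-flat potential -/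
def cut_D (l : List (ℝ × ℝ)) (f : ℝ × ℝ → ℝ) : ℝ × ℝ → ℝ := l.foldr (fun b g => Dd b g) f

def cut_cs (b : ℝ × ℝ) : List (ℝ × ℝ) → ℝ × ℝ × ℝ × ℝ
  | [] => (-(28 * b.1), 56 * b.2, 0, -(23 * b.1))
  | a :: l => cut_co a (cut_cs b l) l.length

theorem cut_FU_D (b : ℝ × ℝ) (l : List (ℝ × ℝ)) :
    EqOn (cut_D l (Dd b FU)) (cut_fam (cut_cs b l) l.length) cut_U := by
  induction l with
  | nil => exact cut_FU_Dd b
  | cons a l ih =>
    intro x hx
    have h1 : cut_D (a :: l) (Dd b FU) x = Dd a (cut_D l (Dd b FU)) x := rfl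
    rw [h1, cut_congr a ih hx, cut_fam_Dd a _ _ hx]
    rfl

/-- the tensor of `FU` -/
def cut_t0 : Ten := ![1, 0, 23, 0, -1, -1, 0, 0, -46, 0, 0, 2, 2, 0, 138]

theorem cut_tenFU (L T : ℝ) (hL : 0 < L) :
    tenOf FU (L, T) (0, Real.sqrt (L / 56)) (L, T) = cut_t0 := by
  have hmem : ((L, T) : ℝ × ℝ) ∈ cut_U := hL
  have hs : Real.sqrt (L / 56) ^ 2 = L / 56 := Real.sq_sqrt (by positivity)
  have hL' : L ≠ 0 := ne_of_gt hL
  generalize Real.sqrt (L / 56) = s at hs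
  have key : ∀ (b : ℝ × ℝ) (l : List (ℝ × ℝ)), cut_D l (Dd b FU) (L, T) =
      cut_fam (cut_cs b l) l.length (L, T) := fun b l => cut_FU_D b l hmem
  have k11 := key (0, s) [(0, s)]
  have k12 := key (L, T) [(0, s)]
  have k22 := key (L, T) [(L, T)]
  have k111 := key (0, s) [(0, s), (0, s)]
  have k112 := key (L, T) [(0, s), (0, s)]
  have k122 := key (L, T) [(0, s), (L, T)]
  have k222 := key (L, T) [(L, T), (L, T)]
  have k1111 := key (0, s) [(0, s), (0, s), (0, s)]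
  have k1112 := key (L, T) [(0, s), (0, s), (0, s)]
  have k1122 := key (L, T) [(0, s), (0, s), (L, T)]
  have k1222 := key (L, T) [(0, s), (L, T), (L, T)]
  have k2222 := key (L, T) [(L, T), (L, T), (L, T)]
  have hs4 : s ^ 4 = (L / 56) ^ 2 := by rw [← hs]; ring
  simp only [cut_D, List.foldr_cons, List.foldr_nil, cut_cs, cut_co, cut_fam, List.length_cons,
    List.length_nil, Nat.cast_zero, Nat.cast_one, Nat.cast_add, zero_add] at k11 k12 k22 k111 k112 k122 k222 k1111 k1112 k1122 k1222 k2222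
  simp only [tenOf, cut_t0]
  rw [k11, k12, k22, k111, k112, k122, k222, k1111, k1112, k1122, k1222, k2222]
  have e0 : s * (L⁻¹) * s = 1 / 56 := by
    field_simp
    rw [hs]; field_simp
  funext i
  fin_cases i
  all_goals simp
  all_goals field_simp
  all_goals try (rw [hs]; field_simp)
  all_goals try ring

theorem cut_Cond0 : cut_t0.Cond := by
  simp only [Ten.Cond, Ten.det, Ten.KDD, Ten.KDO, Ten.KOO, Ten.KII, Ten.K00, Ten.K01, Ten.K02,
    Ten.K11, Ten.K12, Ten.K22, Ten.kk, cut_t0]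
  refine ⟨?_, ?_, ?_, ?_, ?_⟩ <;> simp <;> norm_num

theorem cut_open : IsOpen {t : Ten | t.Cond} := by
  simp only [Ten.Cond, Ten.det, Ten.KDD, Ten.KDO, Ten.KOO, Ten.KII, Ten.K00, Ten.K01, Ten.K02,
    Ten.K11, Ten.K12, Ten.K22, Ten.kk, Ten.det]
  refine IsOpen.and (isOpen_lt ?_ ?_) (IsOpen.and (isOpen_lt ?_ ?_) (IsOpen.and (isOpen_lt ?_ ?_)
    (IsOpen.and (isOpen_lt ?_ ?_) (isOpen_lt ?_ ?_))))
  all_goals fun_prop

/-! ### assembly -/

/-- bound for the derivatives of the cut-off function -/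
theorem cut_bound : ∃ K : ℝ, 1 ≤ K ∧ ∀ ε : ℝ, 0 < ε → ∀ L : ℝ, 0 < L → L ≤ 2 * ε → ∀ j ≤ 4,
    |L ^ j * iteratedDeriv j (fun x => Real.smoothTransition (x / ε - 1)) L| ≤ K := by
  have hc : ∀ j : ℕ, ∃ C : ℝ, ∀ y ∈ Icc (-1 : ℝ) 1,
      ‖iteratedDeriv j Real.smoothTransition y‖ ≤ C := by
    intro j
    refine isCompact_Icc.exists_bound_of_continuousOn ?_
    have : ContDiff ℝ j Real.smoothTransition := Real.smoothTransition.contDiff
    exact (this.continuous_iteratedDeriv j le_rfl).continuousOn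
  choose C hC using hc
  refine ⟨1 + ∑ j ∈ Finset.range 5, 2 ^ j * |C j|, ?_, ?_⟩
  · have : 0 ≤ ∑ j ∈ Finset.range 5, 2 ^ j * |C j| := Finset.sum_nonneg (fun _ _ => by positivity)
    linarith
  intro ε hε L hL hL2 j hj
  have e : iteratedDeriv j (fun x => Real.smoothTransition (x / ε - 1)) L =
      (ε⁻¹) ^ j * iteratedDeriv j Real.smoothTransition (L / ε - 1) := by
    have h1 : (fun x => Real.smoothTransition (x / ε - 1)) =
        fun x => (fun y => Real.smoothTransition (y - 1)) (ε⁻¹ * x) := by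
      funext x
      simp only [div_eq_inv_mul]
    rw [h1]
    have h2 : ContDiff ℝ j (fun y : ℝ => Real.smoothTransition (y - 1)) :=
      Real.smoothTransition.contDiff.comp (contDiff_id.sub contDiff_const)
    have h3 := congrFun (iteratedDeriv_comp_const_mul (n := j) h2 (ε⁻¹)) L
    rw [h3]
    have h4 := congrFun (iteratedDeriv_comp_sub_const (𝕜 := ℝ) j Real.smoothTransition 1) (ε⁻¹ * L)
    rw [h4, div_eq_inv_mul]
  rw [e]
  have hx0 : 0 < L / ε := by positivity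
  have hx2 : L / ε ≤ 2 := by rw [div_le_iff₀ hε]; linarith
  have hm : L / ε - 1 ∈ Icc (-1 : ℝ) 1 := ⟨by linarith, by linarith⟩
  have h5 := hC j _ hm
  rw [Real.norm_eq_abs] at h5
  have e2 : L ^ j * (ε⁻¹ ^ j * iteratedDeriv j Real.smoothTransition (L / ε - 1)) =
      (L / ε) ^ j * iteratedDeriv j Real.smoothTransition (L / ε - 1) := by
    rw [div_eq_mul_inv L ε, mul_pow]; ring
  rw [e2, abs_mul, abs_of_nonneg (by positivity : (0 : ℝ) ≤ (L / ε) ^ j)]
  have h6 : (L / ε) ^ j * |iteratedDeriv j Real.smoothTransition (L / ε - 1)| ≤ 2 ^ j * |C j| :=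
    mul_le_mul (pow_le_pow_left₀ hx0.le hx2 j) (h5.trans (le_abs_self _)) (abs_nonneg _)
      (by positivity)
  refine h6.trans ?_
  have h7 : 2 ^ j * |C j| ≤ ∑ j ∈ Finset.range 5, 2 ^ j * |C j| :=
    Finset.single_le_sum (f := fun j => (2 : ℝ) ^ j * |C j|) (fun _ _ => by positivity)
      (Finset.mem_range.2 (by omega))
  linarith

/-- orders of the entries of a tensor -/
def cut_ord : Fin 15 → ℕ × ℕ := ![(2, 0), (1, 1), (0, 2), (3, 0), (2, 1), (2, 1), (1, 2), (1, 2),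
  (0, 3), (4, 0), (3, 1), (2, 2), (2, 2), (1, 3), (0, 4)]

theorem cut_tenOf_eq (ψ : ℝ × ℝ → ℝ) (p b₁ b₂ : ℝ × ℝ) (i : Fin 15) :
    tenOf ψ p b₁ b₂ i = ((Dd b₁)^[(cut_ord i).1] ((Dd b₂)^[(cut_ord i).2] ψ)) p := by
  fin_cases i <;> rfl

theorem cut_ord_le (i : Fin 15) : (cut_ord i).1 + (cut_ord i).2 ≤ 4 := by
  fin_cases i <;> simp [cut_ord]

theorem st_CUT (hF : ST_FDLIM) (hS : ST_SMF) : ST_CUT := by
  obtain ⟨K, hK1, hK⟩ := cut_bound
  obtain ⟨δ, hδ, hball⟩ := Metric.isOpen_iff.1 cut_open cut_t0 cut_Cond0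
  have hK0 : 0 < K := by linarith
  obtain ⟨L₀, hL₀, hlim⟩ := hF (δ / (32 * K)) (by positivity)
  have hFD : ContDiffOn ℝ ∞ FD cut_U := by
    have h := hS.1.sub cut_FU_smooth
    refine h.congr (fun x _ => ?_)
    simp
  refine ⟨min (9 / 10) (L₀ / 3), by positivity, min_le_left _ _, ?_⟩
  intro L T hL hL2
  set ε := min (9 / 10) (L₀ / 3) with hεdef
  have hε : 0 < ε := by positivity
  have hε2 : ε ≤ L₀ / 3 := min_le_right _ _
  have hLL₀ : L < L₀ := by linarith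
  have hmem : ((L, T) : ℝ × ℝ) ∈ cut_U := hL
  refine ⟨(0, Real.sqrt (L / 56)), (L, T), ?_, ?_⟩
  · have : 0 < Real.sqrt (L / 56) := Real.sqrt_pos.2 (by positivity)
    simp only [zero_mul, zero_sub, ne_eq, neg_eq_zero, mul_eq_zero, not_or]
    exact ⟨this.ne', hL.ne'⟩
  apply hball
  rw [Metric.mem_ball]
  have hc : ContDiff ℝ ∞ (fun x : ℝ => Real.smoothTransition (x / ε - 1)) :=
    Real.smoothTransition.contDiff.comp ((contDiff_id.div_const ε).sub contDiff_const)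
  have hprod : ContDiffOn ℝ ∞ (fun p : ℝ × ℝ =>
      (fun x : ℝ => Real.smoothTransition (x / ε - 1)) p.1 * FD p) cut_U :=
    (cut_fst_smooth hc).mul hFD
  rw [dist_pi_lt_iff hδ]
  intro i
  rw [← cut_tenFU L T hL, cut_tenOf_eq, cut_tenOf_eq]
  have hi := cut_ord_le i
  generalize (cut_ord i).1 = a at hi
  generalize (cut_ord i).2 = b at hi
  have e1 : ((Dd (0, Real.sqrt (L / 56)))^[a] ((Dd (L, T))^[b] (Feps ε))) (L, T) =
      ((Dd (0, Real.sqrt (L / 56)))^[a] ((Dd (L, T))^[b] FU)) (L, T) +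
      ((Dd (0, Real.sqrt (L / 56)))^[a] ((Dd (L, T))^[b] (fun p : ℝ × ℝ =>
      (fun x : ℝ => Real.smoothTransition (x / ε - 1)) p.1 * FD p))) (L, T) :=
    cut_add_iter2 _ _ a b cut_FU_smooth hprod hmem
  rw [e1, Real.dist_eq, add_sub_cancel_left]
  have h := cut_leib L T (Real.sqrt (L / 56)) (δ / (32 * K)) K hL hK0.le a b
    (fun x : ℝ => Real.smoothTransition (x / ε - 1)) FD hc hFD
    (fun j hj => hK ε hε L hL hL2 j (by omega))
    (fun b' hb' => hlim L T hL hLL₀ a b' (by omega))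
  refine lt_of_le_of_lt h ?_
  have h16 : (2 : ℝ) ^ b ≤ 16 := by
    calc (2 : ℝ) ^ b ≤ 2 ^ 4 := pow_le_pow_right₀ (by norm_num) (by omega)
      _ = 16 := by norm_num
  have e3 : (2 : ℝ) ^ b * K * (δ / (32 * K)) = 2 ^ b * (δ / 32) := by
    field_simp
  rw [e3]
  have : (2 : ℝ) ^ b * (δ / 32) ≤ 16 * (δ / 32) := mul_le_mul_of_nonneg_right h16 (by positivity)
  linarith

end RicP
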